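import Pool.Agent.Helper138.Weird.Swap

set_option autoImplicit false

namespace Pool.Agent.Helper138.Weird

open Finset

theorem prod_succ_eq (P : Finset ℕ) :
    ∏ p ∈ P, (p + 1) = ∑ S ∈ P.ssubsets, pr S + ∏ p ∈ P, p := by
  classical
  rw [Finset.prod_add_one]
  have h : P.powerset = insert P P.ssubsets := by
    ext S
    simp only [mem_powerset, mem_insert, mem_ssubsets]
    constructor
    · intro hS
      by_cases h : S = P
      · exact Or.inl h
      · exact Or.inr (hS.ssubset_of_ne h)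
    · rintro (rfl | hS)
      · exact Subset.refl _
      · exact hS.subset
  rw [h, sum_insert (by simp [mem_ssubsets])]
  rw [add_comm]
  rfl

theorem cov_ssubsets (P : Finset ℕ) (hP : ∀ p ∈ P, p.Prime) {A B : ℕ}
    (h : Cov pr P.ssubsets A B) :
    Cov (fun i : ℕ => i) (∏ p ∈ P, p).properDivisors A B := by
  classical
  intro T h1 h2
  obtain ⟨s, hs, hT⟩ := h T h1 h2
  have hsub : ∀ S ∈ s, S ∈ P.powerset := by
    intro S hS
    have := hs hS
    rw [mem_ssubsets] at this
    rw [mem_powerset]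
    exact this.subset
  refine ⟨s.image pr, ?_, ?_⟩
  · intro y hy
    rw [mem_image] at hy
    obtain ⟨S, hS, rfl⟩ := hy
    have hSP := hs hS
    rw [mem_ssubsets] at hSP
    have hpos : 0 < ∏ p ∈ P, p := Finset.prod_pos (fun q hq => (hP q hq).pos)
    have hdvd : pr S ∣ ∏ p ∈ P, p := prod_dvd_prod_of_subset _ _ _ hSP.subset
    rw [Nat.mem_properDivisors]
    refine ⟨hdvd, lt_of_le_of_ne (Nat.le_of_dvd hpos hdvd) ?_⟩
    intro h
    have h3 : pr S = pr P := h
    have := pr_injOn P hP (by rw [mem_coe, mem_powerset]; exact hSP.subset)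
      (by rw [mem_coe, mem_powerset]) h3
    exact hSP.ne this
  · rw [sum_image]
    · exact hT
    · intro a ha b hb hab
      exact pr_injOn P hP (hsub a ha) (hsub b hb) hab

theorem base_cov (P : Finset ℕ) (x w : ℕ) (hP : ∀ p ∈ P, p.Prime) (hx2 : 2 ≤ x)
    (hx : ∀ p ∈ P, x ≤ p ∧ p < 2 * x) (hw : 0 < w) (hwx : w * w ≤ x)
    (hww : w * w ≤ P.card)
    (hch : ∀ n, P.card ≤ 2 * n → 8 * x ≤ n.choose 2)
    (hc3 : 11 * x ^ 2 + 16 * x ≤ P.card.choose 3)
    (hpair : (((2 * x) ^ 3 + 1) / w + 1) + (w - 1) * (5 * x ^ 2) < P.card.choose 3) :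
    ∃ A B, A ≤ 128 * x ^ 5 ∧ ∏ p ∈ P, (p + 1) ≤ ∏ p ∈ P, p + A + B ∧
      Cov (fun i : ℕ => i) (∏ p ∈ P, p).properDivisors A B := by
  classical
  have hx0 : 0 < x := by omega
  -- bounds for products
  have hple : ∀ S ⊆ P, pr S ≤ (2 * x) ^ S.card := fun S hS => pr_le (fun p hp => (hx p (hS hp)).2)
  have hpge : ∀ S ⊆ P, x ^ S.card ≤ pr S := fun S hS => pr_ge (fun p hp => (hx p (hS hp)).1)
  have hinjP := pr_injOn P hP
  -- pairs
  have hinj3 : Set.InjOn pr ((P.powersetCard 3 : Finset (Finset ℕ)) : Set (Finset ℕ)) := by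
    intro a ha b hb hab
    rw [mem_coe, mem_powersetCard] at ha hb
    exact hinjP (by rw [mem_coe, mem_powerset]; exact ha.1)
      (by rw [mem_coe, mem_powerset]; exact hb.1) hab
  obtain ⟨g, hg0, hgw, G1, hG1, hG1c, c0, hc0, hAP⟩ := pairs_index pr (P.powersetCard 3) hinj3
    ((2 * x) ^ 3 + 1) w (5 * x ^ 2) hw (by
      intro S hS
      rw [mem_powersetCard] at hS
      have := hple S hS.1
      rw [hS.2] at this
      omega) (by rw [card_powersetCard]; exact hpair)
  have hgg : g < w * w := by nlinarith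
  -- residues
  have hmaps : ∀ S ∈ P.powersetCard 1, pr S % g ∈ range g := by
    intro S _
    rw [mem_range]
    exact Nat.mod_lt _ hg0
  have hbig : (range g).card * (g - 1) < (P.powersetCard 1).card := by
    rw [card_range, card_powersetCard, Nat.choose_one_right]
    have : g * (g - 1) ≤ g * g := Nat.mul_le_mul_left _ (by omega)
    have h2 : g * g < w * w := Nat.mul_self_lt_mul_self hgw
    omega
  obtain ⟨a, ha, hac⟩ := exists_lt_card_fiber_of_mul_lt_card_of_maps_to hmaps hbig
  have hc2 : g - 1 ≤ ((P.powersetCard 1).filter (fun S => pr S % g = a)).card := hac.le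
  obtain ⟨R, hR, hRc⟩ := exists_subset_card_eq hc2
  have hRm : ∀ S ∈ R, S ⊆ P ∧ S.card = 1 ∧ pr S % g = a := by
    intro S hS
    have := hR hS
    rw [mem_filter, mem_powersetCard] at this
    exact ⟨this.1.1, this.1.2, this.2⟩
  rw [mem_range] at ha
  have hcop : Nat.Coprime a g := by
    have hne : ((P.powersetCard 1).filter (fun S => pr S % g = a)).Nonempty := by
      rw [← card_pos]
      omega
    obtain ⟨S, hS⟩ := hne
    rw [mem_filter, mem_powersetCard, card_eq_one] at hS
    obtain ⟨⟨hSP, p, rfl⟩, hS2⟩ := hS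
    have hp : p ∈ P := hSP (mem_singleton_self p)
    have hpr : pr {p} = p := by simp [pr]
    rw [hpr] at hS2
    have hcp : Nat.Coprime p g := by
      rw [Nat.Prime.coprime_iff_not_dvd (hP p hp)]
      intro hd
      have := Nat.le_of_dvd hg0 hd
      have := (hx p hp).1
      omega
    have hme : a ≡ p [MOD g] := by
      rw [← hS2]
      exact Nat.mod_modEq _ _
    have := hme.gcd_eq
    unfold Nat.Coprime at *
    rw [this]
    exact hcp
  have hG1m : ∀ S ∈ G1, S ⊆ P ∧ S.card = 3 := by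
    intro S hS
    have := hG1 hS
    rwa [mem_powersetCard] at this
  have hdGR : Disjoint G1 R := by
    rw [disjoint_left]
    intro S h1 h2
    have h3 := (hG1m S h1).2
    have h4 := (hRm S h2).2.1
    omega
  have hRM : ∀ S ∈ R, pr S ≤ 2 * x := by
    intro S hS
    have h1 := hRm S hS
    have := hple S h1.1
    rw [h1.2.1] at this
    simpa using this
  have hcov0 := residue_lemma pr G1 R hdGR g c0 (5 * x ^ 2) a (2 * x) hg0 hAP (by omega)
    (by
      intro S hS
      have := (hRm S hS).2.2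
      unfold Nat.ModEq
      rw [this, Nat.mod_eq_of_lt ha]) hRM hcop
  set G0 := G1 ∪ R with hG0
  set A0 := c0 + g * (2 * x) with hA0
  set B0 := c0 + g * (5 * x ^ 2) with hB0
  have hlen : A0 + (2 * x) ^ 2 ≤ B0 := by
    rw [hA0, hB0]
    nlinarith [Nat.mul_le_mul hg0 (Nat.le_refl (4 * x ^ 2)), Nat.mul_le_mul_left (g * x) hx2]
  have hG0m : ∀ S ∈ G0, S ⊆ P ∧ (S.card = 3 ∨ S.card = 1) := by
    intro S hS
    rw [hG0, mem_union] at hS
    rcases hS with h | h
    · exact ⟨(hG1m S h).1, Or.inl (hG1m S h).2⟩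
    · exact ⟨(hRm S h).1, Or.inr (hRm S h).2.1⟩
  have hG0c : G0.card ≤ 11 * x ^ 2 := by
    have h1 : G0.card ≤ G1.card + R.card := card_union_le _ _
    have h2 : x ≤ x ^ 2 := by nlinarith
    omega
  let L : ℕ → Finset (Finset ℕ) := fun k => P.powerset.filter (fun S => S.card ≤ k)
  have hLm : ∀ k S, S ∈ L k ↔ S ⊆ P ∧ S.card ≤ k := by
    intro k S
    simp only [L, mem_filter, mem_powerset]
  -- step bound
  have hpcard : ∀ k, k ≠ 3 → k ≠ 1 → P.powersetCard k \ G0 = P.powersetCard k := by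
    intro k h3 h1
    ext S
    rw [mem_sdiff, mem_powersetCard]
    constructor
    · exact fun h => h.1
    · intro h
      refine ⟨h, fun h' => ?_⟩
      rcases (hG0m S h').2 with h4 | h4 <;> omega
  have hstep : ∀ k, 2 ≤ k → k + 1 < P.card → ∀ S ∈ P.powersetCard (k + 1),
      pr S ≤ ∑ S' ∈ P.powersetCard k \ G0, pr S' := by
    intro k hk hkP S hS
    rw [mem_powersetCard] at hS
    have hub := hple S hS.1
    rw [hS.2] at hub
    rcases Nat.lt_or_ge k 4 with hk4 | hk4
    · interval_cases k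
      · -- k = 2
        rw [hpcard 2 (by omega) (by omega)]
        have h1 : (P.powersetCard 2).card • x ^ 2 ≤ ∑ S' ∈ P.powersetCard 2, pr S' := by
          apply card_nsmul_le_sum
          intro S' hS'
          rw [mem_powersetCard] at hS'
          have := hpge S' hS'.1
          rwa [hS'.2] at this
        rw [card_powersetCard, smul_eq_mul] at h1
        have h2 := hch P.card (by omega)
        have h3 : 8 * x * x ^ 2 ≤ P.card.choose 2 * x ^ 2 := Nat.mul_le_mul_right _ h2
        calc pr S ≤ (2 * x) ^ (2 + 1) := hub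
          _ = 8 * x * x ^ 2 := by ring
          _ ≤ _ := h3.trans h1
      · -- k = 3
        have h1 : (P.powersetCard 3 \ G0).card • x ^ 3 ≤ ∑ S' ∈ P.powersetCard 3 \ G0, pr S' := by
          apply card_nsmul_le_sum
          intro S' hS'
          rw [mem_sdiff, mem_powersetCard] at hS'
          have := hpge S' hS'.1.1
          rwa [hS'.1.2] at this
        rw [smul_eq_mul] at h1
        have h2 : 16 * x ≤ (P.powersetCard 3 \ G0).card := by
          have h3 := le_card_sdiff G0 (P.powersetCard 3)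
          rw [card_powersetCard] at h3
          omega
        have h3 : 16 * x * x ^ 3 ≤ (P.powersetCard 3 \ G0).card * x ^ 3 :=
          Nat.mul_le_mul_right _ h2
        calc pr S ≤ (2 * x) ^ (3 + 1) := hub
          _ = 16 * x * x ^ 3 := by ring
          _ ≤ _ := h3.trans h1
    · rw [hpcard k (by omega) (by omega)]
      have := level_le P x hx0 hx hch S hS.1 (by omega) (by omega)
      rw [hS.2] at this
      exact this
  -- main induction
  have hmain : ∀ k, 2 ≤ k → k < P.card →
      Cov pr (G0 ∪ (L k \ G0)) A0 (B0 + ∑ S ∈ L k \ G0, pr S) := by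
    intro k hk
    induction k, hk using Nat.le_induction with
    | base =>
      intro _
      apply hcov0.union'
      · exact disjoint_sdiff
      · intro S hS
        rw [mem_sdiff, hLm] at hS
        have h1 := hple S hS.1.1
        have h2 : (2 * x) ^ S.card ≤ (2 * x) ^ 2 := Nat.pow_le_pow_right (by omega) hS.1.2
        omega
    | succ k hk ih =>
      intro hkP
      have ih' := ih (by omega)
      have hLk : L (k + 1) \ G0 = (L k \ G0) ∪ (P.powersetCard (k + 1) \ G0) := by
        ext S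
        simp only [mem_union, mem_sdiff, hLm, mem_powersetCard]
        constructor
        · rintro ⟨⟨h1, h2⟩, h3⟩
          rcases Nat.lt_or_ge S.card (k + 1) with h4 | h4
          · exact Or.inl ⟨⟨h1, by omega⟩, h3⟩
          · exact Or.inr ⟨⟨h1, by omega⟩, h3⟩
        · rintro (⟨⟨h1, h2⟩, h3⟩ | ⟨⟨h1, h2⟩, h3⟩)
          · exact ⟨⟨h1, by omega⟩, h3⟩
          · exact ⟨⟨h1, by omega⟩, h3⟩
      have hdis : Disjoint (L k \ G0) (P.powersetCard (k + 1) \ G0) := by
        rw [disjoint_left]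
        intro S h1 h2
        rw [mem_sdiff, hLm] at h1
        rw [mem_sdiff, mem_powersetCard] at h2
        omega
      have hdis2 : Disjoint (G0 ∪ (L k \ G0)) (P.powersetCard (k + 1) \ G0) := by
        rw [disjoint_union_left]
        exact ⟨disjoint_sdiff, hdis⟩
      have h5 := ih'.union' (P.powersetCard (k + 1) \ G0) hdis2 (by
        intro S hS
        rw [mem_sdiff] at hS
        have h6 := hstep k hk hkP S hS.1
        have h7 : ∑ S' ∈ P.powersetCard k \ G0, pr S' ≤ ∑ S' ∈ L k \ G0, pr S' := by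
          apply sum_le_sum_of_subset
          intro S' hS'
          rw [mem_sdiff, mem_powersetCard] at hS'
          rw [mem_sdiff, hLm]
          exact ⟨⟨hS'.1.1, by omega⟩, hS'.2⟩
        omega)
      rw [hLk, sum_union hdis, ← union_assoc, ← add_assoc]
      exact h5
  have ht4 : 4 ≤ P.card := by
    by_contra hcon
    push Not at hcon
    have h1 : P.card.choose 3 ≤ 1 := by
      interval_cases P.card <;> decide
    nlinarith
  have hfin := hmain (P.card - 1) (by omega) (by omega)
  have hsubs : G0 ∪ (L (P.card - 1) \ G0) ⊆ P.ssubsets := by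
    intro S hS
    rw [mem_union, mem_sdiff, hLm] at hS
    rw [mem_ssubsets]
    rcases hS with h | ⟨⟨h1, h2⟩, _⟩
    · have := hG0m S h
      refine this.1.ssubset_of_ne ?_
      intro he
      rw [he] at this
      rcases this.2 with h5 | h5 <;> omega
    · refine h1.ssubset_of_ne ?_
      intro he
      rw [he] at h2
      omega
  have hsubs2 : P.ssubsets ⊆ G0 ∪ (L (P.card - 1) \ G0) := by
    intro S hS
    rw [mem_ssubsets] at hS
    rw [mem_union, mem_sdiff, hLm]
    by_cases h : S ∈ G0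
    · exact Or.inl h
    · refine Or.inr ⟨⟨hS.subset, ?_⟩, h⟩
      have := card_lt_card hS
      omega
  refine ⟨A0 + ∑ S ∈ G0, pr S, B0 + ∑ S ∈ L (P.card - 1) \ G0, pr S, ?_, ?_, ?_⟩
  · have h1 : ∑ S ∈ G0, pr S ≤ ∑ S ∈ G1, pr S + ∑ S ∈ R, pr S := by
      rw [hG0, sum_union hdGR]
    have h2 : ∑ S ∈ G1, pr S ≤ G1.card • (2 * x) ^ 3 := by
      apply sum_le_card_nsmul
      intro S hS
      have h := hple S (hG1m S hS).1
      rwa [(hG1m S hS).2] at h
    have h3 : ∑ S ∈ R, pr S ≤ R.card • (2 * x) := sum_le_card_nsmul _ _ _ hRM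
    rw [smul_eq_mul] at h2 h3
    have h4 : G1.card * (2 * x) ^ 3 ≤ (2 * (5 * x ^ 2)) * (2 * x) ^ 3 := Nat.mul_le_mul_right _ hG1c
    have h5 : R.card * (2 * x) ≤ x * (2 * x) := Nat.mul_le_mul_right _ (by omega)
    have h6 : g * (2 * x) ≤ x * (2 * x) := Nat.mul_le_mul_right _ (by omega)
    have e1 : (2 * (5 * x ^ 2)) * (2 * x) ^ 3 = 80 * x ^ 5 := by ring
    have e2 : 5 * x ^ 2 * ((2 * x) ^ 3 + 1) = 40 * x ^ 5 + 5 * x ^ 2 := by ring
    have e3 : x * (2 * x) = 2 * x ^ 2 := by ring
    have e4 : 8 * x ^ 2 ≤ x ^ 5 := by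
      have : 2 ^ 3 * x ^ 2 ≤ x ^ 3 * x ^ 2 := Nat.mul_le_mul_right _ (Nat.pow_le_pow_left hx2 3)
      calc 8 * x ^ 2 = 2 ^ 3 * x ^ 2 := by norm_num
        _ ≤ x ^ 3 * x ^ 2 := this
        _ = x ^ 5 := by ring
    rw [e1] at h4
    rw [e2] at hc0
    rw [e3] at h5 h6
    omega
  · rw [prod_succ_eq]
    have h1 : ∑ S ∈ P.ssubsets, pr S ≤ ∑ S ∈ G0 ∪ (L (P.card - 1) \ G0), pr S :=
      sum_le_sum_of_subset hsubs2
    rw [sum_union disjoint_sdiff] at h1
    omega
  · apply cov_ssubsets P hP
    exact (hfin.mono_set hsubs).mono (by omega) le_rfl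

end Pool.Agent.Helper138.Weird
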