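import Mathlib

set_option autoImplicit false

namespace Pool.Agent.Helper138.Weird

open Finset

/-- Subset sums of `v` over `F` cover the interval `[A,B]`. -/
def Cov {ι : Type*} (v : ι → ℕ) (F : Finset ι) (A B : ℕ) : Prop :=
  ∀ T, A ≤ T → T ≤ B → ∃ s ⊆ F, ∑ i ∈ s, v i = T

theorem Cov.mono_set {ι : Type*} {v : ι → ℕ} {F G : Finset ι} {A B : ℕ}
    (h : Cov v F A B) (hFG : F ⊆ G) : Cov v G A B := by
  intro T h1 h2
  obtain ⟨s, hs, hT⟩ := h T h1 h2
  exact ⟨s, hs.trans hFG, hT⟩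

theorem Cov.mono {ι : Type*} {v : ι → ℕ} {F : Finset ι} {A B A' B' : ℕ}
    (h : Cov v F A B) (hA : A ≤ A') (hB : B' ≤ B) : Cov v F A' B' := by
  intro T h1 h2
  exact h T (hA.trans h1) (h2.trans hB)

theorem Cov.insert' {ι : Type*} [DecidableEq ι] {v : ι → ℕ} {F : Finset ι} {A B : ℕ}
    (h : Cov v F A B) {e : ι} (heF : e ∉ F) (he : v e + A ≤ B + 1) :
    Cov v (insert e F) A (B + v e) := by
  intro T h1 h2
  by_cases hT : T ≤ B
  · obtain ⟨s, hs, hT⟩ := h T h1 hT
    exact ⟨s, hs.trans (subset_insert _ _), hT⟩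
  · push Not at hT
    obtain ⟨s, hs, hTs⟩ := h (T - v e) (by omega) (by omega)
    have hes : e ∉ s := fun hh => heF (hs hh)
    refine ⟨insert e s, insert_subset_insert _ hs, ?_⟩
    rw [sum_insert hes, hTs]
    omega

theorem Cov.union' {ι : Type*} [DecidableEq ι] {v : ι → ℕ} {F : Finset ι} {A B : ℕ}
    (h : Cov v F A B) (G : Finset ι) (hd : Disjoint F G)
    (hG : ∀ e ∈ G, v e + A ≤ B + 1) :
    Cov v (F ∪ G) A (B + ∑ e ∈ G, v e) := by
  induction G using Finset.induction_on with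
  | empty => simpa using h
  | insert a s ha ih =>
    have hd' : Disjoint F s := by
      rw [disjoint_insert_right] at hd
      exact hd.2
    have haF : a ∉ F := by
      rw [disjoint_insert_right] at hd
      exact hd.1
    have ih' := ih hd' (fun e he => hG e (mem_insert_of_mem he))
    have h1 : a ∉ F ∪ s := by
      simp [haF, ha]
    have h2 := ih'.insert' h1 (by have := hG a (mem_insert_self _ _); omega)
    rw [union_insert, sum_insert ha]
    have : B + (v a + ∑ e ∈ s, v e) = B + ∑ e ∈ s, v e + v a := by ring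
    rw [this]
    exact h2

theorem decomp {q A B C D T : ℕ} (hAB : A ≤ B) (_hCD : C ≤ D) (hq : q + C ≤ D + 1)
    (h1 : q * A + C ≤ T) (h2 : T ≤ q * B + D) :
    ∃ a c, A ≤ a ∧ a ≤ B ∧ C ≤ c ∧ c ≤ D ∧ T = q * a + c := by
  rcases Nat.eq_zero_or_pos q with h0 | h0
  · subst h0
    exact ⟨A, T, le_refl _, hAB, by omega, by omega, by omega⟩
  · by_cases hb : (T - C) / q ≤ B
    · refine ⟨(T - C) / q, C + (T - C) % q, ?_, hb, by omega, ?_, ?_⟩
      · rw [Nat.le_div_iff_mul_le h0]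
        have : A * q = q * A := by ring
        omega
      · have := Nat.mod_lt (T - C) h0
        omega
      · have := Nat.div_add_mod (T - C) q
        omega
    · push Not at hb
      have h3 : B * q ≤ T - C := by
        rw [← Nat.le_div_iff_mul_le h0]
        exact hb.le
      have h4 : B * q = q * B := by ring
      have h5 : C ≤ T := by
        have := Nat.zero_le (q * A)
        omega
      exact ⟨B, T - q * B, hAB, le_refl _, by omega, by omega, by omega⟩

theorem cov_comb {F G H : Finset ℕ} {q A B C D : ℕ} (hq0 : 0 < q)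
    (hF : Cov (fun i : ℕ => i) F A B) (hG : Cov (fun i : ℕ => i) G C D)
    (hAB : A ≤ B) (hCD : C ≤ D) (hq : q + C ≤ D + 1)
    (hFH : ∀ f ∈ F, q * f ∈ H) (hGH : G ⊆ H) (hdisj : ∀ f ∈ F, q * f ∉ G) :
    Cov (fun i : ℕ => i) H (q * A + C) (q * B + D) := by
  intro T h1 h2
  obtain ⟨a, c, ha1, ha2, hc1, hc2, hT⟩ := decomp hAB hCD hq h1 h2
  obtain ⟨s, hs, hsa⟩ := hF a ha1 ha2
  obtain ⟨s', hs', hsc⟩ := hG c hc1 hc2
  refine ⟨s.image (fun i => q * i) ∪ s', ?_, ?_⟩
  · intro y hy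
    rw [mem_union, mem_image] at hy
    rcases hy with ⟨f, hf, rfl⟩ | hy
    · exact hFH f (hs hf)
    · exact hGH (hs' hy)
  · rw [sum_union, sum_image]
    · rw [← mul_sum, hsa, hsc, hT]
    · intro i _ j _ hij
      exact Nat.eq_of_mul_eq_mul_left hq0 hij
    · rw [disjoint_left]
      intro y hy hy'
      rw [mem_image] at hy
      obtain ⟨f, hf, rfl⟩ := hy
      exact hdisj f (hs hf) (hs' hy')

/-- `P` a finite set of primes; the proper divisors of `∏ P` cover an almost symmetric interval. -/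
def Good (P : Finset ℕ) (A B : ℕ) : Prop :=
  A ≤ B ∧ ∏ p ∈ P, (p + 1) ≤ ∏ p ∈ P, p + A + B ∧
    Cov (fun i : ℕ => i) (∏ p ∈ P, p).properDivisors A B

theorem merge_aux (P : Finset ℕ) (hP : ∀ p ∈ P, p.Prime) (N' A' B' : ℕ) (hN' : 0 < N')
    (hcop : ∀ p ∈ P, ¬ p ∣ N') (hA' : A' ≤ B')
    (hcov : Cov (fun i : ℕ => i) N'.properDivisors A' B')
    (hsmall : ∀ p ∈ P, p + A' ≤ B' + 1) :
    Cov (fun i : ℕ => i) (((∏ p ∈ P, p) * N').divisors.filter (fun e => ¬ N' ∣ e))
      (A' * ∏ p ∈ P, (p + 1)) (B' * ∏ p ∈ P, (p + 1)) := by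
  induction P using Finset.induction_on with
  | empty =>
    simp only [prod_empty, one_mul, mul_one]
    refine hcov.mono_set ?_
    intro d hd
    rw [Nat.mem_properDivisors] at hd
    rw [mem_filter, Nat.mem_divisors]
    refine ⟨⟨hd.1, hN'.ne'⟩, ?_⟩
    intro h
    have hd0 : 0 < d := Nat.pos_of_dvd_of_pos hd.1 hN'
    have := Nat.le_of_dvd hd0 h
    omega
  | insert p s hps ih =>
    have ih' := ih (fun q hq => hP q (mem_insert_of_mem hq))
      (fun q hq => hcop q (mem_insert_of_mem hq))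
      (fun q hq => hsmall q (mem_insert_of_mem hq))
    have hpp := hP p (mem_insert_self _ _)
    have hpN' := hcop p (mem_insert_self _ _)
    have hpsm := hsmall p (mem_insert_self _ _)
    have hsprime : ∀ q ∈ s, q.Prime := fun q hq => hP q (mem_insert_of_mem hq)
    have hprod0 : 0 < ∏ q ∈ s, q := Finset.prod_pos (fun q hq => (hsprime q hq).pos)
    have hσ : 1 ≤ ∏ q ∈ s, (q + 1) := Finset.prod_pos (fun q _ => Nat.succ_pos q)
    have hmono : A' * ∏ q ∈ s, (q + 1) ≤ B' * ∏ q ∈ s, (q + 1) := Nat.mul_le_mul_right _ hA'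
    have key := cov_comb (H := ((∏ q ∈ insert p s, q) * N').divisors.filter (fun e => ¬ N' ∣ e))
      hpp.pos ih' ih' hmono hmono (by
        obtain ⟨l, hl⟩ := Nat.exists_eq_add_of_le hA'
        have hl2 : p ≤ l + 1 := by omega
        subst hl
        have : l ≤ l * ∏ q ∈ s, (q + 1) := Nat.le_mul_of_pos_right _ hσ
        rw [add_mul]
        omega) ?_ ?_ ?_
    · have e1 : ∀ X : ℕ, X * ∏ q ∈ insert p s, (q + 1)
          = p * (X * ∏ q ∈ s, (q + 1)) + X * ∏ q ∈ s, (q + 1) := by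
        intro X
        rw [prod_insert hps]
        ring
      rw [e1, e1]
      exact key
    · intro f hf
      rw [mem_filter, Nat.mem_divisors] at hf ⊢
      rw [prod_insert hps]
      refine ⟨⟨?_, ?_⟩, ?_⟩
      · rw [mul_assoc]
        exact Nat.mul_dvd_mul_left _ hf.1.1
      · exact Nat.mul_ne_zero (Nat.mul_ne_zero hpp.pos.ne' hprod0.ne') hN'.ne'
      · intro h
        apply hf.2
        have hc : Nat.Coprime N' p := ((Nat.Prime.coprime_iff_not_dvd hpp).2 hpN').symm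
        exact hc.dvd_of_dvd_mul_left h
    · intro f hf
      rw [mem_filter, Nat.mem_divisors] at hf ⊢
      rw [prod_insert hps]
      refine ⟨⟨?_, ?_⟩, hf.2⟩
      · rw [mul_assoc]
        exact Dvd.dvd.mul_left hf.1.1 _
      · exact Nat.mul_ne_zero (Nat.mul_ne_zero hpp.pos.ne' hprod0.ne') hN'.ne'
    · intro f hf hf'
      rw [mem_filter, Nat.mem_divisors] at hf'
      have h1 : p ∣ (∏ q ∈ s, q) * N' := (Dvd.intro _ rfl).trans hf'.1.1
      rcases (Nat.Prime.dvd_mul hpp).1 h1 with h2 | h2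
      · rw [Prime.dvd_finset_prod_iff hpp.prime] at h2
        obtain ⟨q, hq, hpq⟩ := h2
        rw [Nat.prime_dvd_prime_iff_eq hpp (hsprime q hq)] at hpq
        exact hps (hpq ▸ hq)
      · exact hpN' h2

theorem merge (P P' : Finset ℕ) (hP : ∀ p ∈ P, p.Prime) (hP' : ∀ p ∈ P', p.Prime)
    (hd : Disjoint P P') {A B A' B' : ℕ} (hg : Good P A B) (hg' : Good P' A' B')
    (hsmall : ∀ p ∈ P, p + A' ≤ B' + 1)
    (hlink : ∏ p ∈ P', p + A' * ∏ p ∈ P, (p + 1) ≤ B' * ∏ p ∈ P, (p + 1) + 1) :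
    Good (P ∪ P') ((∏ p ∈ P', p) * A + A' * ∏ p ∈ P, (p + 1))
      ((∏ p ∈ P', p) * B + B' * ∏ p ∈ P, (p + 1)) := by
  obtain ⟨hAB, hS, hC⟩ := hg
  obtain ⟨hAB', hS', hC'⟩ := hg'
  have hN' : 0 < ∏ p ∈ P', p := Finset.prod_pos (fun q hq => (hP' q hq).pos)
  have hN : 0 < ∏ p ∈ P, p := Finset.prod_pos (fun q hq => (hP q hq).pos)
  have hcop : ∀ p ∈ P, ¬ p ∣ ∏ q ∈ P', q := by
    intro p hp h
    rw [Prime.dvd_finset_prod_iff (hP p hp).prime] at h
    obtain ⟨q, hq, hpq⟩ := h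
    rw [Nat.prime_dvd_prime_iff_eq (hP p hp) (hP' q hq)] at hpq
    subst hpq
    exact (disjoint_left.1 hd) hp hq
  have h1 := merge_aux P hP _ A' B' hN' hcop hAB' hC' hsmall
  have hmono : A' * ∏ q ∈ P, (q + 1) ≤ B' * ∏ q ∈ P, (q + 1) := Nat.mul_le_mul_right _ hAB'
  refine ⟨?_, ?_, ?_⟩
  · have := Nat.mul_le_mul_left (∏ p ∈ P', p) hAB
    omega
  · rw [prod_union hd, prod_union hd]
    set N := ∏ p ∈ P, p
    set N' := ∏ p ∈ P', p
    set s := ∏ p ∈ P, (p + 1)
    set s' := ∏ p ∈ P', (p + 1)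
    have h2 : s * s' ≤ s * (N' + A' + B') := Nat.mul_le_mul_left _ hS'
    have h3 : s * N' ≤ (N + A + B) * N' := Nat.mul_le_mul_right _ hS
    nlinarith
  · rw [prod_union hd]
    refine cov_comb hN' hC h1 hAB hmono hlink ?_ ?_ ?_
    · intro f hf
      rw [Nat.mem_properDivisors] at hf ⊢
      refine ⟨?_, ?_⟩
      · rw [mul_comm]
        exact Nat.mul_dvd_mul_right hf.1 _
      · rw [mul_comm]
        exact Nat.mul_lt_mul_of_pos_right hf.2 hN'
    · intro e he
      rw [mem_filter, Nat.mem_divisors] at he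
      rw [Nat.mem_properDivisors]
      refine ⟨he.1.1, ?_⟩
      refine lt_of_le_of_ne (Nat.le_of_dvd (Nat.mul_pos hN hN') he.1.1) ?_
      intro h
      apply he.2
      rw [h]
      exact Dvd.intro_left _ rfl
    · intro f _ hf'
      rw [mem_filter] at hf'
      exact hf'.2 (Dvd.intro _ rfl)

end Pool.Agent.Helper138.Weird
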