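import Pool.Agent.Helper138.Weird.Rec

set_option autoImplicit false

namespace Pool.Agent.Helper138.Weird

open Finset

/-- `σ(m)/m ≤ (∏_{p ∣ m} (1 + 1/p))²`. -/
theorem sigma_le (m : ℕ) (hm : 0 < m) :
    ((∑ d ∈ m.divisors, d : ℕ) : ℝ) ≤ m * (Hr m.primeFactors) ^ 2 := by
  induction m using Nat.recOnPosPrimePosCoprime with
  | prime_pow p n hp hn =>
    rw [Nat.primeFactors_prime_pow hn.ne' hp, Nat.sum_divisors_prime_pow hp]
    have hp2 : (2 : ℝ) ≤ (p : ℝ) := by exact_mod_cast hp.two_le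
    simp only [Hr, prod_singleton]
    push_cast
    rw [geom_sum_eq (by linarith)]
    rw [div_le_iff₀ (by linarith)]
    have hpn : (0 : ℝ) < (p : ℝ) ^ n := by positivity
    have h1 : (p : ℝ) ≤ (1 + 1 / (p : ℝ)) ^ 2 * (p - 1) := by
      have h2 : (1 + 1 / (p : ℝ)) ^ 2 * (p - 1) = ((p : ℝ) + 1) ^ 2 * (p - 1) / p ^ 2 := by
        field_simp
      rw [h2, le_div_iff₀ (by positivity)]
      nlinarith
    calc (p : ℝ) ^ (n + 1) - 1 ≤ p ^ n * p := by rw [pow_succ]; linarith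
      _ ≤ p ^ n * ((1 + 1 / (p : ℝ)) ^ 2 * (p - 1)) := mul_le_mul_of_nonneg_left h1 hpn.le
      _ = p ^ n * (1 + 1 / (p : ℝ)) ^ 2 * (p - 1) := by ring
  | zero => exact absurd hm (lt_irrefl _)
  | one => simp [Hr]
  | coprime a b ha hb hab iha ihb =>
    have h1 := iha (by omega)
    have h2 := ihb (by omega)
    rw [Nat.Coprime.sum_divisors_mul hab, Nat.Coprime.primeFactors_mul hab]
    have h3 : Hr (a.primeFactors ∪ b.primeFactors) = Hr a.primeFactors * Hr b.primeFactors := by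
      unfold Hr
      rw [prod_union (Nat.Coprime.disjoint_primeFactors hab)]
    rw [h3]
    push_cast at h1 h2 ⊢
    calc (∑ x ∈ a.divisors, (x : ℝ)) * ∑ x ∈ b.divisors, (x : ℝ)
        ≤ (a * (Hr a.primeFactors) ^ 2) * (b * (Hr b.primeFactors) ^ 2) :=
          mul_le_mul h1 h2 (by positivity) (by positivity)
      _ = a * b * (Hr a.primeFactors * Hr b.primeFactors) ^ 2 := by ring

theorem semiperfect_of_large (J0 : ℕ) (hJ1 : 1 ≤ J0)
    (hJ : ∀ j, J0 ≤ j → 1000000 * (j ^ 2) ^ 7 ≤ 2 ^ j) (m : ℕ) (hm : 0 < m)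
    (hbig : 4 * Real.exp J0 * Real.exp (∑' n : ℕ, 1 / (n : ℝ) ^ 2) ≤ Hr m.primeFactors) :
    ∃ s ⊆ m.properDivisors, ∑ i ∈ s, i = m := by
  classical
  let Pj : ℕ → Finset ℕ := fun j => m.primeFactors.filter (fun p => Nat.log 2 p = j)
  have hPj : ∀ j, ∀ p ∈ Pj j, p.Prime ∧ 2 ^ j ≤ p ∧ p < 2 ^ (j + 1) := by
    intro j p hp
    simp only [Pj, mem_filter] at hp
    obtain ⟨h1, h2⟩ := hp
    have hpp := Nat.prime_of_mem_primeFactors h1
    subst h2
    exact ⟨hpp, Nat.pow_log_le_self 2 hpp.ne_zero, Nat.lt_pow_succ_log_self (by norm_num) p⟩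
  let nice : ℕ → Prop := fun j => 2 ^ j ≤ (Pj j).card * j ^ 2
  set K := J0 + m with hK
  have hJK : J0 ≤ K := by omega
  have hprod : ∏ j ∈ range K, Hr (Pj j) = Hr m.primeFactors := by
    unfold Hr
    simp only [Pj]
    rw [Finset.prod_fiberwise_of_maps_to]
    intro p hp
    rw [mem_range]
    have hpp := Nat.prime_of_mem_primeFactors hp
    have h1 : p ≤ m := Nat.le_of_dvd hm (Nat.dvd_of_mem_primeFactors hp)
    have h2 : Nat.log 2 p < p := Nat.log_lt_self 2 hpp.ne_zero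
    omega
  rw [← Finset.prod_range_mul_prod_Ico _ hJK] at hprod
  have h1 : ∏ j ∈ range J0, Hr (Pj j) ≤ Real.exp J0 := by
    calc ∏ j ∈ range J0, Hr (Pj j) ≤ ∏ j ∈ range J0, Real.exp 1 := by
          apply Finset.prod_le_prod
          · intro j _
            have := Hr_one_le (Pj j)
            linarith
          · intro j _
            exact Hr_le_exp_one (Pj j) j (fun p hp => (hPj j p hp).2)
      _ = Real.exp J0 := by
          rw [prod_const, card_range, ← Real.exp_nat_mul, mul_one]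
  have h2 : ∏ j ∈ Ico J0 K, Hr (Pj j) ≤ Real.exp (∑' n : ℕ, 1 / (n : ℝ) ^ 2) *
      ∏ j ∈ Ico J0 K, (if nice j then Hr (Pj j) else 1) := by
    have h3 : ∏ j ∈ Ico J0 K, Hr (Pj j) ≤ ∏ j ∈ Ico J0 K, (Real.exp (1 / (j : ℝ) ^ 2) *
        (if nice j then Hr (Pj j) else 1)) := by
      apply Finset.prod_le_prod
      · intro j _
        have := Hr_one_le (Pj j)
        linarith
      · intro j hj
        rw [mem_Ico] at hj
        have hj0 : (0 : ℝ) < (j : ℝ) := by
          have : 0 < j := by omega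
          exact_mod_cast this
        split_ifs with hn
        · have h4 : 1 ≤ Real.exp (1 / (j : ℝ) ^ 2) := Real.one_le_exp (by positivity)
          have h5 := Hr_one_le (Pj j)
          nlinarith
        · rw [mul_one]
          refine (Hr_le_exp (Pj j) j (fun p hp => (hPj j p hp).2.1)).trans ?_
          apply Real.exp_le_exp.2
          rw [div_le_div_iff₀ (by positivity) (by positivity), one_mul]
          have h6 : (Pj j).card * j ^ 2 ≤ 2 ^ j := by
            have : ¬ (2 ^ j ≤ (Pj j).card * j ^ 2) := hn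
            omega
          exact_mod_cast h6
    refine h3.trans ?_
    rw [prod_mul_distrib]
    apply mul_le_mul_of_nonneg_right
    · rw [← Real.exp_sum]
      apply Real.exp_le_exp.2
      apply Summable.sum_le_tsum _ (fun i _ => by positivity)
      exact Real.summable_one_div_nat_pow.2 (by norm_num)
    · apply Finset.prod_nonneg
      intro j _
      split_ifs
      · have := Hr_one_le (Pj j)
        linarith
      · norm_num
  obtain ⟨P, A, B, hPm, hg, hA, _, hH⟩ := recursion J0 hJ1 hJ Pj hPj nice (fun j hj => hj) K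
    (K - J0) J0 (by omega) le_rfl
  set X := ∏ j ∈ Ico J0 K, (if nice j then Hr (Pj j) else 1) with hX
  have hX4 : 4 ≤ X := by
    have h5 : 4 * Real.exp J0 * Real.exp (∑' n : ℕ, 1 / (n : ℝ) ^ 2) ≤
        Real.exp J0 * (Real.exp (∑' n : ℕ, 1 / (n : ℝ) ^ 2) * X) := by
      refine hbig.trans ?_
      rw [← hprod]
      apply mul_le_mul h1 h2
      · apply Finset.prod_nonneg
        intro j _
        have := Hr_one_le (Pj j)
        linarith
      · positivity
    have h6 : (Real.exp J0 * Real.exp (∑' n : ℕ, 1 / (n : ℝ) ^ 2)) * 4 ≤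
        (Real.exp J0 * Real.exp (∑' n : ℕ, 1 / (n : ℝ) ^ 2)) * X := by
      calc _ = 4 * Real.exp J0 * Real.exp (∑' n : ℕ, 1 / (n : ℝ) ^ 2) := by ring
        _ ≤ _ := h5
        _ = _ := by ring
    exact le_of_mul_le_mul_left h6 (by positivity)
  have hH3 : 3 ≤ Hr P := by
    refine le_trans ?_ hH
    have h8 : (2 : ℝ) / 8 ^ J0 ≤ 1 / 4 := by
      have : (8 : ℝ) ≤ 8 ^ J0 := by
        calc (8 : ℝ) = 8 ^ 1 := by norm_num
          _ ≤ 8 ^ J0 := pow_le_pow_right₀ (by norm_num) hJ1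
      rw [div_le_div_iff₀ (by positivity) (by norm_num)]
      linarith
    nlinarith
  have hP : ∀ p ∈ P, p.Prime := by
    intro p hp
    obtain ⟨j, _, hj⟩ := hPm p hp
    exact (hPj j p hj).1
  have hPdvd : ∀ p ∈ P, p ∣ m := by
    intro p hp
    obtain ⟨j, _, hj⟩ := hPm p hp
    simp only [Pj, mem_filter] at hj
    exact Nat.dvd_of_mem_primeFactors hj.1
  set N := ∏ p ∈ P, p with hN
  have hNpos : 0 < N := Finset.prod_pos (fun q hq => (hP q hq).pos)
  have hNm : N ∣ m := by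
    rw [hN]
    exact Finset.prod_primes_dvd m (fun p hp => (hP p hp).prime) hPdvd
  have h3N : 3 * N ≤ ∏ p ∈ P, (p + 1) := by
    have h9 := Hr_mul P hP
    have : (3 : ℝ) * N ≤ ((∏ p ∈ P, (p + 1) : ℕ) : ℝ) := by
      rw [← h9]
      exact mul_le_mul_of_nonneg_right hH3 (Nat.cast_nonneg _)
    exact_mod_cast this
  have hAN : A ≤ N := by
    have : 1 ≤ 8 ^ J0 := Nat.one_le_pow _ _ (by norm_num)
    nlinarith
  have hNB : N ≤ B := by
    have := hg.2.1
    omega
  obtain ⟨s, hs, hsN⟩ := hg.2.2 N hAN hNB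
  obtain ⟨c, hc⟩ := hNm
  have hc0 : 0 < c := by
    rcases Nat.eq_zero_or_pos c with h | h
    · rw [h] at hc
      omega
    · exact h
  refine ⟨s.image (fun i => i * c), ?_, ?_⟩
  · intro y hy
    rw [mem_image] at hy
    obtain ⟨i, hi, rfl⟩ := hy
    have h10 := hs hi
    rw [Nat.mem_properDivisors] at h10 ⊢
    rw [hc]
    exact ⟨Nat.mul_dvd_mul_right h10.1 c, Nat.mul_lt_mul_of_pos_right h10.2 hc0⟩
  · rw [sum_image (fun i _ j _ hij => Nat.eq_of_mul_eq_mul_right hc0 hij), ← sum_mul, hsN, hc]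

theorem main : ∃ C : ℝ, ∀ m : ℕ, 0 < m →
    (¬ ∃ s ⊆ m.properDivisors, ∑ i ∈ s, i = m) →
    ((∑ i ∈ m.divisors, i : ℕ) : ℝ) / (m : ℝ) ≤ C := by
  obtain ⟨J0, hJ1, hJ⟩ := exists_J0
  refine ⟨(4 * Real.exp J0 * Real.exp (∑' n : ℕ, 1 / (n : ℝ) ^ 2)) ^ 2, ?_⟩
  intro m hm hns
  by_contra hcon
  push Not at hcon
  apply hns
  apply semiperfect_of_large J0 hJ1 hJ m hm
  have h1 := sigma_le m hm
  have hmR : (0 : ℝ) < m := by exact_mod_cast hm
  have h2 : ((∑ i ∈ m.divisors, i : ℕ) : ℝ) / (m : ℝ) ≤ (Hr m.primeFactors) ^ 2 := by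
    rw [div_le_iff₀ hmR]
    linarith
  have h3 := hcon.trans_le h2
  have h4 := Hr_one_le m.primeFactors
  exact (pow_le_pow_iff_left₀ (by positivity) (by linarith) (by norm_num)).1 h3.le

end Pool.Agent.Helper138.Weird
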