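import Pool.Agent.Helper138.Weird.Base

set_option autoImplicit false

namespace Pool.Agent.Helper138.Weird

open Finset

theorem choose_two_bound {x n t : ℕ} (hx : 1 ≤ x) (ht : 128 * x ≤ t ^ 2) (hn : t ≤ 2 * n) :
    8 * x ≤ n.choose 2 := by
  have h1 : t ^ 2 ≤ (2 * n) ^ 2 := Nat.pow_le_pow_left hn 2
  have h2 : 32 * x ≤ n ^ 2 := by nlinarith
  have h3 : 2 ≤ n := by
    by_contra hcon
    push Not at hcon
    interval_cases n <;> omega
  rw [Nat.choose_two_right, Nat.le_div_iff_mul_le (by norm_num)]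
  obtain ⟨m, rfl⟩ := Nat.exists_eq_add_of_le h3
  have h4 : 2 + m - 1 = 1 + m := by omega
  rw [h4]
  nlinarith

theorem choose_three_bound {t : ℕ} (ht : 6 ≤ t) : t ^ 3 ≤ 12 * t.choose 3 := by
  have h1 : t.choose 3 * 6 = t * (t - 1) * (t - 2) := by
    have h := Nat.choose_mul_factorial_mul_factorial (show 3 ≤ t by omega)
    have h2 : t.descFactorial 3 = 6 * t.choose 3 := by
      rw [Nat.descFactorial_eq_factorial_mul_choose]
      rfl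
    have h3 : t.descFactorial 3 = (t - 2) * ((t - 1) * t) := by
      simp [Nat.descFactorial]
    rw [mul_comm, ← h2, h3]
    ring
  obtain ⟨m, rfl⟩ := Nat.exists_eq_add_of_le ht
  have h4 : 6 + m - 1 = 5 + m := by omega
  have h5 : 6 + m - 2 = 4 + m := by omega
  rw [h4, h5] at h1
  nlinarith [sq_nonneg m, Nat.zero_le (m ^ 3)]

theorem item_aux (P : Finset ℕ) (x K : ℕ) (hP : ∀ p ∈ P, p.Prime)
    (hx : ∀ p ∈ P, x ≤ p ∧ p < 2 * x) (hK : 1 ≤ K) (hKx : 1000000 * K ^ 7 ≤ x)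
    (ht : x ≤ P.card * K) :
    ∃ A B, Good P A B ∧ 2 * A * x ^ 3 ≤ ∏ p ∈ P, p ∧ 16 * x ^ 4 ≤ ∏ p ∈ P, p := by
  set t := P.card with htdef
  have hK7 : 1 ≤ K ^ 7 := Nat.one_le_pow _ _ hK
  have hx6 : 1000000 ≤ x := by omega
  have hxp : 0 < x := by omega
  -- t is large
  have htK : 1000000 * K ^ 6 ≤ t := by
    have h1 : (1000000 * K ^ 6) * K ≤ t * K := by
      calc (1000000 * K ^ 6) * K = 1000000 * K ^ 7 := by ring
        _ ≤ x := hKx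
        _ ≤ t * K := ht
    exact Nat.le_of_mul_le_mul_right h1 hK
  have hK6 : 1 ≤ K ^ 6 := Nat.one_le_pow _ _ hK
  have ht6 : 1000000 ≤ t := by omega
  have hK67 : K ^ 6 ≤ K ^ 7 := Nat.pow_le_pow_right hK (by norm_num)
  have hK27 : K ^ 2 ≤ K ^ 7 := Nat.pow_le_pow_right hK (by norm_num)
  have hK37 : K ^ 3 ≤ K ^ 7 := Nat.pow_le_pow_right hK (by norm_num)
  -- t^2 ≥ 128 x
  have ht2 : 128 * x ≤ t ^ 2 := by
    have h1 : x ^ 2 ≤ (t * K) ^ 2 := Nat.pow_le_pow_left ht 2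
    have h2 : (128 * x) * K ^ 2 ≤ t ^ 2 * K ^ 2 := by
      calc (128 * x) * K ^ 2 = x * (128 * K ^ 2) := by ring
        _ ≤ x * x := Nat.mul_le_mul_left _ (by omega)
        _ = x ^ 2 := by ring
        _ ≤ (t * K) ^ 2 := h1
        _ = t ^ 2 * K ^ 2 := by ring
    exact Nat.le_of_mul_le_mul_right h2 (Nat.pow_pos hK)
  have ht3 : x ^ 3 ≤ t ^ 3 * K ^ 3 := by
    calc x ^ 3 ≤ (t * K) ^ 3 := Nat.pow_le_pow_left ht 3
      _ = t ^ 3 * K ^ 3 := by ring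
  have hC3 := choose_three_bound (show 6 ≤ t by omega)
  have hK3pos : 0 < K ^ 3 := Nat.pow_pos hK
  have hchoose3 : 324 * x ^ 2 ≤ t ^ 3 := by
    have h2 : (324 * x ^ 2) * K ^ 3 ≤ t ^ 3 * K ^ 3 := by
      calc (324 * x ^ 2) * K ^ 3 = x ^ 2 * (324 * K ^ 3) := by ring
        _ ≤ x ^ 2 * x := Nat.mul_le_mul_left _ (by omega)
        _ = x ^ 3 := by ring
        _ ≤ _ := ht3
    exact Nat.le_of_mul_le_mul_right h2 hK3pos
  have hxx : x ≤ x ^ 2 := by nlinarith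
  have hpairs : (((2 * x) ^ 3 + 1) / (400 * K ^ 3) + 1) + (400 * K ^ 3 - 1) * (5 * x ^ 2)
      < t.choose 3 := by
    set D := ((2 * x) ^ 3 + 1) / (400 * K ^ 3) with hD
    have hD1 : D * (400 * K ^ 3) ≤ (2 * x) ^ 3 + 1 := Nat.div_mul_le_self _ _
    by_contra hcon
    push Not at hcon
    have h1 : t.choose 3 ≤ D + 1 + 400 * K ^ 3 * (5 * x ^ 2) := by
      refine hcon.trans ?_
      have : (400 * K ^ 3 - 1) * (5 * x ^ 2) ≤ 400 * K ^ 3 * (5 * x ^ 2) :=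
        Nat.mul_le_mul_right _ (by omega)
      omega
    have h2 : 400 * x ^ 3 ≤ 4800 * K ^ 3 * (D + 1 + 400 * K ^ 3 * (5 * x ^ 2)) := by
      calc 400 * x ^ 3 ≤ 400 * (t ^ 3 * K ^ 3) := Nat.mul_le_mul_left _ ht3
        _ = 400 * K ^ 3 * t ^ 3 := by ring
        _ ≤ 400 * K ^ 3 * (12 * t.choose 3) := Nat.mul_le_mul_left _ hC3
        _ = 4800 * K ^ 3 * t.choose 3 := by ring
        _ ≤ _ := Nat.mul_le_mul_left _ h1
    have h3 : 4800 * K ^ 3 * (D + 1 + 400 * K ^ 3 * (5 * x ^ 2))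
        = 12 * (D * (400 * K ^ 3)) + 4800 * K ^ 3 + 9600000 * K ^ 6 * x ^ 2 := by ring
    have h4 : 9600000 * K ^ 6 * x ^ 2 ≤ 10 * x ^ 3 := by
      calc 9600000 * K ^ 6 * x ^ 2 ≤ (10 * x) * x ^ 2 := Nat.mul_le_mul_right _ (by omega)
        _ = 10 * x ^ 3 := by ring
    have h5 : 4800 * K ^ 3 ≤ x ^ 3 := by
      calc 4800 * K ^ 3 ≤ x := by omega
        _ ≤ x ^ 2 := hxx
        _ ≤ x ^ 3 := Nat.pow_le_pow_right hxp (by norm_num)
    have h6 : (2 * x) ^ 3 = 8 * x ^ 3 := by ring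
    have h7 : 1 ≤ x ^ 3 := Nat.one_le_pow _ _ hxp
    rw [h3] at h2
    rw [h6] at hD1
    omega
  obtain ⟨A, B, hA, hσ, hcov⟩ := base_cov P x (400 * K ^ 3) hP (by omega) hx (by positivity)
    (by
      calc 400 * K ^ 3 * (400 * K ^ 3) = 160000 * K ^ 6 := by ring
        _ ≤ x := by omega)
    (by
      calc 400 * K ^ 3 * (400 * K ^ 3) = 160000 * K ^ 6 := by ring
        _ ≤ P.card := by rw [← htdef]; omega)
    (fun n hn => choose_two_bound hxp ht2 hn)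
    (by rw [← htdef]; omega) hpairs
  have hN9 : x ^ 9 ≤ ∏ p ∈ P, p := by
    calc x ^ 9 ≤ x ^ t := Nat.pow_le_pow_right hxp (by omega)
      _ ≤ pr P := pr_ge (fun p hp => (hx p hp).1)
  have hx9 : 1000000 * x ^ 8 ≤ x ^ 9 := by
    calc 1000000 * x ^ 8 ≤ x * x ^ 8 := Nat.mul_le_mul_right _ hx6
      _ = x ^ 9 := by ring
  have hne : P.Nonempty := by
    rw [← card_pos]
    omega
  obtain ⟨p, hp⟩ := hne
  have hAB : A ≤ B := by
    have hE1 : pr (P.erase p) * p = ∏ q ∈ P, q := prod_erase_mul P (fun q => q) hp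
    have hE2 : pr (P.erase p) ≤ ∑ S ∈ P.ssubsets, pr S := by
      apply single_le_sum (f := pr) (fun _ _ => Nat.zero_le _)
      rw [mem_ssubsets]
      exact erase_ssubset hp
    rw [prod_succ_eq] at hσ
    have hE3 : 2 * A ≤ pr (P.erase p) := by
      by_contra hcon
      push Not at hcon
      have h1 : pr (P.erase p) * p ≤ (256 * x ^ 5) * (2 * x) :=
        Nat.mul_le_mul (by omega) (hx p hp).2.le
      have h2 : (256 * x ^ 5) * (2 * x) = 512 * x ^ 6 := by ring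
      have h3 : x ^ 6 ≤ x ^ 8 := Nat.pow_le_pow_right hxp (by norm_num)
      have h4 : 1 ≤ x ^ 8 := Nat.one_le_pow _ _ hxp
      omega
    omega
  refine ⟨A, B, ⟨hAB, hσ, hcov⟩, ?_, ?_⟩
  · calc 2 * A * x ^ 3 ≤ 2 * (128 * x ^ 5) * x ^ 3 :=
          Nat.mul_le_mul_right _ (Nat.mul_le_mul_left _ hA)
      _ = 256 * x ^ 8 := by ring
      _ ≤ x ^ 9 := by omega
      _ ≤ _ := hN9
  · have h3 : x ^ 4 ≤ x ^ 8 := Nat.pow_le_pow_right hxp (by norm_num)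
    omega

theorem exists_J0 : ∃ J0 : ℕ, 1 ≤ J0 ∧ ∀ j, J0 ≤ j → 1000000 * (j ^ 2) ^ 7 ≤ 2 ^ j := by
  have h := tendsto_pow_const_div_const_pow_of_one_lt 14 (show (1 : ℝ) < 2 by norm_num)
  have h2 := (h.eventually (gt_mem_nhds (show (0 : ℝ) < 1 / 1000000 by norm_num)))
  rw [Filter.eventually_atTop] at h2
  obtain ⟨J, hJ⟩ := h2
  refine ⟨J + 1, by omega, ?_⟩
  intro j hj
  have h3 := hJ j (by omega)
  have h4 : (0 : ℝ) < 2 ^ j := by positivity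
  rw [div_lt_iff₀ h4] at h3
  have h5 : (1000000 : ℝ) * (j : ℝ) ^ 14 ≤ 2 ^ j := by linarith
  have h6 : ((1000000 * j ^ 14 : ℕ) : ℝ) ≤ ((2 ^ j : ℕ) : ℝ) := by
    push_cast
    exact h5
  have h7 : 1000000 * j ^ 14 ≤ 2 ^ j := by exact_mod_cast h6
  calc 1000000 * (j ^ 2) ^ 7 = 1000000 * j ^ 14 := by ring
    _ ≤ 2 ^ j := h7

theorem item (P : Finset ℕ) (j : ℕ) (hP : ∀ p ∈ P, p.Prime) (hj1 : 1 ≤ j)
    (hx : ∀ p ∈ P, 2 ^ j ≤ p ∧ p < 2 ^ (j + 1)) (hj : 1000000 * (j ^ 2) ^ 7 ≤ 2 ^ j)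
    (ht : 2 ^ j ≤ P.card * j ^ 2) :
    ∃ A B, Good P A B ∧ 2 * A * 8 ^ j ≤ ∏ p ∈ P, p ∧ 16 ^ (j + 1) ≤ ∏ p ∈ P, p := by
  obtain ⟨A, B, h1, h2, h3⟩ := item_aux P (2 ^ j) (j ^ 2) hP (by
    intro p hp
    have := hx p hp
    rw [pow_succ] at this
    omega) (Nat.one_le_pow _ _ hj1) hj ht
  refine ⟨A, B, h1, ?_, ?_⟩
  · have : (8 : ℕ) ^ j = (2 ^ j) ^ 3 := by
      rw [← pow_mul, mul_comm, pow_mul]
      norm_num
    rw [this]
    exact h2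
  · have : (16 : ℕ) ^ (j + 1) = 16 * (2 ^ j) ^ 4 := by
      rw [← pow_mul, mul_comm j 4, pow_mul, pow_succ]
      norm_num
      ring
    rw [this]
    exact h3

end Pool.Agent.Helper138.Weird
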