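import Pool.Agent.Helper138.Weird.Cov

set_option autoImplicit false

namespace Pool.Agent.Helper138.Weird

open Finset

/-- Pigeonhole: many disjoint pairs with the same small difference. -/
theorem pairs_lemma (V : Finset ℕ) (M w k0 : ℕ) (hw : 0 < w) (hV : ∀ v ∈ V, v < M)
    (hcard : (M / w + 1) + (w - 1) * k0 < V.card) :
    ∃ g, 0 < g ∧ g < w ∧ ∃ W ⊆ V, W.card = k0 ∧ (∀ a ∈ W, a + g ∈ V) ∧
      (∀ a ∈ W, a + g ∉ W) := by
  classical
  let μ : ℕ → ℕ := fun i => sInf {u : ℕ | u ∈ V ∧ u / w = i}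
  have hμ1 : ∀ v ∈ V, μ (v / w) ∈ V ∧ μ (v / w) / w = v / w := by
    intro v hv
    have : ({u : ℕ | u ∈ V ∧ u / w = v / w} : Set ℕ).Nonempty := ⟨v, hv, rfl⟩
    exact Nat.sInf_mem this
  have hμ2 : ∀ v ∈ V, μ (v / w) ≤ v := by
    intro v hv
    exact Nat.sInf_le ⟨hv, rfl⟩
  set X := V.filter (fun v => μ (v / w) ≠ v) with hX
  have hXc : V.card = (V.filter (fun v => μ (v / w) = v)).card + X.card := by
    rw [hX]
    exact (card_filter_add_card_filter_not (s := V) (fun v => μ (v / w) = v)).symm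
  have hmin : (V.filter (fun v => μ (v / w) = v)).card ≤ M / w + 1 := by
    have h1 : (V.filter (fun v => μ (v / w) = v)).card ≤ (range (M / w + 1)).card := by
      apply card_le_card_of_injOn (fun v => v / w)
      · intro v hv
        rw [mem_coe, mem_filter] at hv
        rw [mem_coe, mem_range]
        exact Nat.lt_succ_of_le (Nat.div_le_div_right (hV v hv.1).le)
      · intro a ha b hb hab
        rw [mem_coe, mem_filter] at ha hb
        simp only at hab
        rw [← ha.2, ← hb.2, hab]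
    rwa [card_range] at h1
  have hXbig : (Ico 1 w).card * k0 < X.card := by
    rw [Nat.card_Ico]
    omega
  have hmaps : ∀ v ∈ X, v - μ (v / w) ∈ Ico 1 w := by
    intro v hv
    rw [hX, mem_filter] at hv
    have h1 := hμ1 v hv.1
    have h2 := hμ2 v hv.1
    rw [mem_Ico]
    constructor
    · have := hv.2
      omega
    · have h3 := Nat.div_add_mod v w
      have h4 := Nat.div_add_mod (μ (v / w)) w
      rw [h1.2] at h4
      have h5 := Nat.mod_lt v hw
      omega
  obtain ⟨g, hg, hgc⟩ := exists_lt_card_fiber_of_mul_lt_card_of_maps_to hmaps hXbig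
  rw [mem_Ico] at hg
  have hY : ∀ v ∈ X.filter (fun v => v - μ (v / w) = g), v ∈ V ∧ μ (v / w) ≠ v ∧
      v - g = μ (v / w) ∧ μ (v/w) + g = v := by
    intro v hv
    rw [mem_filter, hX, mem_filter] at hv
    have h2 := hμ2 v hv.1.1
    refine ⟨hv.1.1, hv.1.2, ?_, ?_⟩ <;> omega
  have hinj : Set.InjOn (fun v => v - g) (X.filter (fun v => v - μ (v / w) = g) : Set ℕ) := by
    intro a ha b hb hab
    have h1 := hY a ha
    have h2 := hY b hb
    simp only at hab
    omega
  have hc2 : k0 ≤ ((X.filter (fun v => v - μ (v / w) = g)).image (fun v => v - g)).card := by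
    rw [card_image_of_injOn hinj]
    exact hgc.le
  obtain ⟨W, hW, hWc⟩ := exists_subset_card_eq hc2
  refine ⟨g, by omega, hg.2, W, ?_, hWc, ?_, ?_⟩
  · intro a ha
    have := hW ha
    rw [mem_image] at this
    obtain ⟨v, hv, rfl⟩ := this
    have h1 := hY v hv
    rw [h1.2.2.1]
    exact (hμ1 v h1.1).1
  · intro a ha
    have := hW ha
    rw [mem_image] at this
    obtain ⟨v, hv, rfl⟩ := this
    have h1 := hY v hv
    have h2 : v - g + g = v := by omega
    rw [h2]
    exact h1.1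
  · intro a ha hag
    have h3 := hW ha
    rw [mem_image] at h3
    obtain ⟨v, hv, rfl⟩ := h3
    have h1 := hY v hv
    have h2 : v - g + g = v := by omega
    rw [h2] at hag
    have h4 := hW hag
    rw [mem_image] at h4
    obtain ⟨v', hv', hvv⟩ := h4
    have h5 := hY v' hv'
    have h6 : v = μ (v' / w) := by omega
    have h7 := (hμ1 v' h5.1).2
    rw [← h6] at h7
    apply h1.2.1
    rw [h7]
    exact h6.symm

theorem ap_lemma (W : Finset ℕ) (g : ℕ) (hW : ∀ a ∈ W, a + g ∉ W) (c : ℕ) (hc : c ≤ W.card) :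
    ∃ s ⊆ W ∪ W.image (fun a => a + g), ∑ i ∈ s, i = ∑ i ∈ W, i + g * c := by
  classical
  obtain ⟨C, hC, hCc⟩ := exists_subset_card_eq hc
  refine ⟨(W \ C) ∪ C.image (fun a => a + g), ?_, ?_⟩
  · exact union_subset_union sdiff_subset (image_subset_image hC)
  · rw [sum_union, sum_image]
    · rw [sum_add_distrib, sum_const, hCc, smul_eq_mul]
      have := sum_sdiff (f := fun i : ℕ => i) hC
      rw [mul_comm g c]
      omega
    · intro a _ b _ hab
      simp only at hab
      omega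
    · rw [disjoint_left]
      intro y hy hy'
      rw [mem_image] at hy'
      obtain ⟨a, ha, rfl⟩ := hy'
      rw [mem_sdiff] at hy
      exact hW a (hC ha) hy.1

/-- Pairs lemma transferred to an indexed family. -/
theorem pairs_index {ι : Type*} [DecidableEq ι] (v : ι → ℕ) (V : Finset ι)
    (hinj : Set.InjOn v (V : Set ι)) (M w k0 : ℕ) (hw : 0 < w) (hV : ∀ i ∈ V, v i < M)
    (hcard : (M / w + 1) + (w - 1) * k0 < V.card) :
    ∃ g, 0 < g ∧ g < w ∧ ∃ G ⊆ V, G.card ≤ 2 * k0 ∧ ∃ c0, c0 ≤ k0 * M ∧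
      ∀ c ≤ k0, ∃ s ⊆ G, ∑ i ∈ s, v i = c0 + g * c := by
  classical
  have hc : (V.image v).card = V.card := card_image_of_injOn hinj
  obtain ⟨g, hg0, hgw, W, hWV, hWc, hW1, hW2⟩ := pairs_lemma (V.image v) M w k0 hw (by
    intro a ha
    rw [mem_image] at ha
    obtain ⟨i, hi, rfl⟩ := ha
    exact hV i hi) (by rw [hc]; exact hcard)
  have hU : W ∪ W.image (fun a => a + g) ⊆ V.image v := by
    apply union_subset hWV
    intro y hy
    rw [mem_image] at hy
    obtain ⟨a, ha, rfl⟩ := hy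
    exact hW1 a ha
  have himg : ∀ s ⊆ V.image v, (V.filter (fun i => v i ∈ s)).image v = s := by
    intro s hs
    ext y
    rw [mem_image]
    constructor
    · rintro ⟨i, hi, rfl⟩
      rw [mem_filter] at hi
      exact hi.2
    · intro hy
      have := hs hy
      rw [mem_image] at this
      obtain ⟨i, hi, rfl⟩ := this
      exact ⟨i, by rw [mem_filter]; exact ⟨hi, hy⟩, rfl⟩
  have hinj' : ∀ s : Finset ℕ, Set.InjOn v ((V.filter (fun i => v i ∈ s) : Finset ι) : Set ι) := by
    intro s a ha b hb hab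
    rw [mem_coe, mem_filter] at ha hb
    exact hinj ha.1 hb.1 hab
  refine ⟨g, hg0, hgw, V.filter (fun i => v i ∈ W ∪ W.image (fun a => a + g)),
    filter_subset _ _, ?_, ∑ i ∈ W, i, ?_, ?_⟩
  · rw [← card_image_of_injOn (hinj' _), himg _ hU]
    calc (W ∪ W.image (fun a => a + g)).card ≤ W.card + (W.image (fun a => a + g)).card :=
          card_union_le _ _
      _ ≤ W.card + W.card := by
          have := card_image_le (s := W) (f := fun a => a + g)
          omega
      _ = 2 * k0 := by omega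
  · rw [← hWc, ← smul_eq_mul]
    apply sum_le_card_nsmul
    intro a ha
    have := hWV ha
    rw [mem_image] at this
    obtain ⟨i, hi, rfl⟩ := this
    exact (hV i hi).le
  · intro c hc
    obtain ⟨s, hs, hsum⟩ := ap_lemma W g hW2 c (by omega)
    refine ⟨V.filter (fun i => v i ∈ s), ?_, ?_⟩
    · intro i hi
      rw [mem_filter] at hi ⊢
      exact ⟨hi.1, hs hi.2⟩
    · rw [← hsum]
      conv_rhs => rw [← himg s (hs.trans hU)]
      rw [sum_image (hinj' s)]

theorem residue_lemma {ι : Type*} [DecidableEq ι] (v : ι → ℕ) (G R : Finset ι)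
    (hd : Disjoint G R) (g c0 k0 a M : ℕ) (hg : 0 < g)
    (hAP : ∀ c ≤ k0, ∃ s ⊆ G, ∑ i ∈ s, v i = c0 + g * c) (hR : g ≤ R.card + 1)
    (hRa : ∀ i ∈ R, v i ≡ a [MOD g]) (hRM : ∀ i ∈ R, v i ≤ M) (hcop : Nat.Coprime a g) :
    Cov v (G ∪ R) (c0 + g * M) (c0 + g * k0) := by
  intro T h1 h2
  haveI : NeZero g := ⟨hg.ne'⟩
  let u := ZMod.unitOfCoprime a hcop
  let z : ZMod g := ((T - c0 : ℕ) : ZMod g) * ((u⁻¹ : (ZMod g)ˣ) : ZMod g)
  have hz : z.val < g := ZMod.val_lt z
  have hza : ((z.val * a : ℕ) : ZMod g) = ((T - c0 : ℕ) : ZMod g) := by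
    rw [Nat.cast_mul, ZMod.natCast_zmod_val]
    have : (a : ZMod g) = (u : ZMod g) := (ZMod.coe_unitOfCoprime a hcop).symm
    rw [this]
    simp [z]
  have hz2 : z.val ≤ R.card := by omega
  obtain ⟨R', hR', hRc⟩ := exists_subset_card_eq hz2
  have hsum : (((∑ i ∈ R', v i : ℕ)) : ZMod g) = ((z.val * a : ℕ) : ZMod g) := by
    rw [Nat.cast_sum]
    have : ∀ i ∈ R', (v i : ZMod g) = (a : ZMod g) := by
      intro i hi
      exact (ZMod.natCast_eq_natCast_iff _ _ _).2 (hRa i (hR' hi))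
    rw [sum_congr rfl this, sum_const, hRc, nsmul_eq_mul, Nat.cast_mul]
  have hle : ∑ i ∈ R', v i ≤ g * M := by
    calc ∑ i ∈ R', v i ≤ R'.card • M := sum_le_card_nsmul _ _ _ (fun i hi => hRM i (hR' hi))
      _ = z.val * M := by rw [hRc, smul_eq_mul]
      _ ≤ g * M := Nat.mul_le_mul_right _ hz.le
  have hmod : (∑ i ∈ R', v i) ≡ T - c0 [MOD g] := by
    rw [← ZMod.natCast_eq_natCast_iff, hsum, hza]
  have hdvd : g ∣ (T - c0) - ∑ i ∈ R', v i := (Nat.modEq_iff_dvd' (by omega)).1 hmod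
  obtain ⟨c, hc⟩ := hdvd
  have hck : c ≤ k0 := by
    by_contra hcon
    push Not at hcon
    have : g * k0 < g * c := Nat.mul_lt_mul_of_pos_left hcon hg
    omega
  obtain ⟨s, hs, hss⟩ := hAP c hck
  refine ⟨s ∪ R', union_subset_union hs hR', ?_⟩
  rw [sum_union (disjoint_of_subset_left hs (disjoint_of_subset_right hR' hd)), hss]
  omega

end Pool.Agent.Helper138.Weird
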