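import Pool.Agent.Helper138.Weird.Item

set_option autoImplicit false

namespace Pool.Agent.Helper138.Weird

open Finset

/-- `∏ (1 + 1/p)` -/
noncomputable def Hr (P : Finset ℕ) : ℝ := ∏ p ∈ P, (1 + 1 / (p : ℝ))

theorem Hr_mul (P : Finset ℕ) (hP : ∀ p ∈ P, p.Prime) :
    Hr P * ((∏ p ∈ P, p : ℕ) : ℝ) = ((∏ p ∈ P, (p + 1) : ℕ) : ℝ) := by
  unfold Hr
  push_cast
  rw [← prod_mul_distrib]
  apply prod_congr rfl
  intro p hp
  have : (p : ℝ) ≠ 0 := by
    have := (hP p hp).pos
    positivity
  field_simp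

theorem one_le_prod_real {ι : Type*} (s : Finset ι) (f : ι → ℝ) (h : ∀ i ∈ s, 1 ≤ f i) :
    1 ≤ ∏ i ∈ s, f i := by
  calc (1 : ℝ) = ∏ i ∈ s, (1 : ℝ) := by simp
    _ ≤ ∏ i ∈ s, f i := Finset.prod_le_prod (fun _ _ => zero_le_one) h

theorem Hr_one_le (P : Finset ℕ) : 1 ≤ Hr P := by
  unfold Hr
  apply one_le_prod_real
  intro p hp
  have : (0 : ℝ) ≤ 1 / (p : ℝ) := by positivity
  linarith

theorem Hr_le_exp (P : Finset ℕ) (j : ℕ) (h : ∀ p ∈ P, 2 ^ j ≤ p) :
    Hr P ≤ Real.exp ((P.card : ℝ) / 2 ^ j) := by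
  unfold Hr
  calc ∏ p ∈ P, (1 + 1 / (p : ℝ)) ≤ ∏ p ∈ P, Real.exp (1 / 2 ^ j) := by
        apply Finset.prod_le_prod
        · intro p _
          positivity
        · intro p hp
          have h1 : (2 : ℝ) ^ j ≤ (p : ℝ) := by exact_mod_cast h p hp
          have h2 : (0 : ℝ) < 2 ^ j := by positivity
          have h3 : 1 / (p : ℝ) ≤ 1 / 2 ^ j := one_div_le_one_div_of_le h2 h1
          have h4 := Real.add_one_le_exp (1 / (2 : ℝ) ^ j)
          linarith
    _ = Real.exp ((P.card : ℝ) / 2 ^ j) := by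
        rw [prod_const, ← Real.exp_nat_mul]
        congr 1
        ring

theorem card_le_of_block (P : Finset ℕ) (j : ℕ) (h : ∀ p ∈ P, 2 ^ j ≤ p ∧ p < 2 ^ (j + 1)) :
    P.card ≤ 2 ^ j := by
  have h1 : P ⊆ Ico (2 ^ j) (2 ^ (j + 1)) := by
    intro p hp
    rw [mem_Ico]
    exact h p hp
  have h2 := card_le_card h1
  rw [Nat.card_Ico, pow_succ] at h2
  omega

theorem Hr_le_exp_one (P : Finset ℕ) (j : ℕ) (h : ∀ p ∈ P, 2 ^ j ≤ p ∧ p < 2 ^ (j + 1)) :
    Hr P ≤ Real.exp 1 := by
  refine (Hr_le_exp P j (fun p hp => (h p hp).1)).trans ?_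
  apply Real.exp_le_exp.2
  rw [div_le_one (by positivity)]
  exact_mod_cast card_le_of_block P j h

theorem recursion (J0 : ℕ) (hJ1 : 1 ≤ J0)
    (hJ : ∀ j, J0 ≤ j → 1000000 * (j ^ 2) ^ 7 ≤ 2 ^ j)
    (Pj : ℕ → Finset ℕ) (hPj : ∀ j, ∀ p ∈ Pj j, p.Prime ∧ 2 ^ j ≤ p ∧ p < 2 ^ (j + 1))
    (nice : ℕ → Prop) [DecidablePred nice]
    (hnice : ∀ j, nice j → 2 ^ j ≤ (Pj j).card * j ^ 2) (K : ℕ) :
    ∀ d k, k + d = K → J0 ≤ k → ∃ (P : Finset ℕ) (A B : ℕ),
      (∀ p ∈ P, ∃ j, k ≤ j ∧ p ∈ Pj j) ∧ Good P A B ∧ A * 8 ^ k ≤ ∏ p ∈ P, p ∧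
      (P = ∅ ∨ 16 ^ (k + 1) ≤ ∏ p ∈ P, p) ∧
      (1 - 2 / (8 : ℝ) ^ k) * ∏ j ∈ Ico k K, (if nice j then Hr (Pj j) else 1) ≤ Hr P := by
  intro d
  induction d with
  | zero =>
    intro k hk _
    refine ⟨∅, 0, 0, by simp, ⟨le_rfl, by simp, ?_⟩, by simp, Or.inl rfl, ?_⟩
    · intro T _ h2
      exact ⟨∅, empty_subset _, by simp; omega⟩
    · have : k = K := by omega
      subst this
      simp only [Ico_self, prod_empty, mul_one, Hr]
      have : (0 : ℝ) ≤ 2 / (8 : ℝ) ^ k := by positivity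
      linarith
  | succ d ih =>
    intro k hk hJk
    obtain ⟨P', A', B', hm', hg', hA', hbig', hH'⟩ := ih (k + 1) (by omega) (by omega)
    have hkK : k < K := by omega
    rw [prod_eq_prod_Ico_succ_bot hkK]
    set X := ∏ j ∈ Ico (k + 1) K, (if nice j then Hr (Pj j) else 1) with hX
    have hX1 : 1 ≤ X := by
      rw [hX]
      apply one_le_prod_real
      intro j _
      split_ifs
      · exact Hr_one_le _
      · exact le_rfl
    have hP' : ∀ p ∈ P', p.Prime := by
      intro p hp
      obtain ⟨j, _, hj⟩ := hm' p hp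
      exact (hPj j p hj).1
    have hu : (0 : ℝ) < 1 / 8 ^ k := by positivity
    have hu2 : (1 : ℝ) / 8 ^ k ≤ 1 / 8 := by
      apply one_div_le_one_div_of_le (by norm_num)
      calc (8 : ℝ) = 8 ^ 1 := by norm_num
        _ ≤ 8 ^ k := pow_le_pow_right₀ (by norm_num) (by omega)
    have e1 : (2 : ℝ) / 8 ^ k = 2 * (1 / 8 ^ k) := by ring
    have e2 : (2 : ℝ) / 8 ^ (k + 1) = (1 / 4) * (1 / 8 ^ k) := by
      rw [pow_succ]
      field_simp
      norm_num
    rw [e2] at hH'
    rw [e1]
    by_cases hn : nice k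
    · rw [if_pos hn]
      obtain ⟨A, B, hg, hA, hbig⟩ := item (Pj k) k (fun p hp => (hPj k p hp).1) (by omega)
        (fun p hp => (hPj k p hp).2) (hJ k hJk) (hnice k hn)
      have hPk : ∀ p ∈ Pj k, p.Prime := fun p hp => (hPj k p hp).1
      have hHk := Hr_one_le (Pj k)
      by_cases hlink : (∏ p ∈ P', p) + 8 ^ k * ((∏ p ∈ P', p) + 2 * A') ≤
          8 ^ k * ∏ p ∈ P', (p + 1)
      · -- merge
        have hne : 16 ^ (k + 1 + 1) ≤ ∏ p ∈ P', p := by
          rcases hbig' with h | h
          · exfalso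
            rw [h] at hlink
            simp only [prod_empty, mul_one] at hlink
            have : 0 < 8 ^ k := by positivity
            nlinarith [Nat.zero_le (8 ^ k * A')]
          · exact h
        have hd : Disjoint (Pj k) P' := by
          rw [disjoint_left]
          intro p hp hp'
          obtain ⟨j, hj1, hj2⟩ := hm' p hp'
          have h1 := (hPj k p hp).2.2
          have h2 := (hPj j p hj2).2.1
          have h3 : 2 ^ (k + 1) ≤ 2 ^ j := Nat.pow_le_pow_right (by norm_num) hj1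
          omega
        set N := ∏ p ∈ Pj k, p with hN
        set N' := ∏ p ∈ P', p with hN'
        set σ := ∏ p ∈ Pj k, (p + 1) with hσ
        set σ' := ∏ p ∈ P', (p + 1) with hσ'
        have hS' : σ' ≤ N' + A' + B' := hg'.2.1
        have hlen : N' + 8 ^ k * A' ≤ 8 ^ k * B' := by
          have := Nat.mul_le_mul_left (8 ^ k) hS'
          nlinarith
        have h16 : (16 : ℕ) ^ (k + 1 + 1) = 8 ^ k * (256 * 2 ^ k) := by
          have : (16 : ℕ) ^ k = 8 ^ k * 2 ^ k := by
            rw [← mul_pow]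
            norm_num
          rw [pow_succ, pow_succ, this]
          ring
        have hB' : A' + 256 * 2 ^ k ≤ B' := by
          have h8 : 0 < 8 ^ k := by positivity
          have : 8 ^ k * (A' + 256 * 2 ^ k) ≤ 8 ^ k * B' := by
            rw [mul_add, ← h16]
            omega
          exact Nat.le_of_mul_le_mul_left this h8
        have hσN : N ≤ σ := by
          rw [hN, hσ]
          exact prod_le_prod' (fun p _ => Nat.le_succ p)
        have h8N : 8 ^ k ≤ N := by
          have h1 : (8 : ℕ) ^ k ≤ 16 ^ k := Nat.pow_le_pow_left (by norm_num) k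
          have h2 : (16 : ℕ) ^ k ≤ 16 ^ (k + 1) := Nat.pow_le_pow_right (by norm_num) (by omega)
          omega
        have hσ4 : σ ≤ 4 * N := by
          have h1 := Hr_le_exp_one (Pj k) k (fun p hp => (hPj k p hp).2)
          have h2 := Real.exp_one_lt_d9
          have h3 := Hr_mul (Pj k) hPk
          have h4 : (σ : ℝ) ≤ 4 * N := by
            rw [hσ, ← h3, ← hN]
            apply mul_le_mul_of_nonneg_right _ (Nat.cast_nonneg _)
            linarith
          exact_mod_cast h4
        refine ⟨Pj k ∪ P', N' * A + A' * σ, N' * B + B' * σ, ?_, ?_, ?_, ?_, ?_⟩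
        · intro p hp
          rw [mem_union] at hp
          rcases hp with hp | hp
          · exact ⟨k, le_rfl, hp⟩
          · obtain ⟨j, hj1, hj2⟩ := hm' p hp
            exact ⟨j, by omega, hj2⟩
        · apply merge (Pj k) P' hPk hP' hd hg hg'
          · intro p hp
            have := (hPj k p hp).2.2
            rw [pow_succ] at this
            omega
          · obtain ⟨l, hl⟩ := Nat.exists_eq_add_of_le hg'.1
            have h1 : N' ≤ l * σ := by
              have h2 : N' ≤ 8 ^ k * l := by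
                rw [hl] at hlen
                nlinarith
              calc N' ≤ 8 ^ k * l := h2
                _ = l * 8 ^ k := by ring
                _ ≤ l * σ := Nat.mul_le_mul_left _ (h8N.trans hσN)
            show N' + A' * σ ≤ B' * σ + 1
            rw [hl, add_mul]
            omega
        · rw [prod_union hd, ← hN, ← hN']
          have h1 : N' * (2 * A * 8 ^ k) ≤ N' * N := Nat.mul_le_mul_left _ hA
          have h2 : (A' * 8 ^ (k + 1)) * σ ≤ N' * (4 * N) := Nat.mul_le_mul hA' hσ4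
          rw [pow_succ] at h2
          nlinarith
        · right
          rw [prod_union hd, ← hN, ← hN']
          have : 1 ≤ N' := by
            have : 0 < 16 ^ (k + 1 + 1) := by positivity
            omega
          calc 16 ^ (k + 1) ≤ N := hbig
            _ = N * 1 := by ring
            _ ≤ N * N' := Nat.mul_le_mul_left _ this
        · have h1 : Hr (Pj k ∪ P') = Hr (Pj k) * Hr P' := by
            unfold Hr
            rw [prod_union hd]
          rw [h1]
          have h2 : (1 - 2 * (1 / (8 : ℝ) ^ k)) * X ≤ Hr P' := by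
            refine le_trans ?_ hH'
            apply mul_le_mul_of_nonneg_right _ (by linarith)
            linarith
          calc (1 - 2 * (1 / (8 : ℝ) ^ k)) * (Hr (Pj k) * X)
              = Hr (Pj k) * ((1 - 2 * (1 / (8 : ℝ) ^ k)) * X) := by ring
            _ ≤ Hr (Pj k) * Hr P' := mul_le_mul_of_nonneg_left h2 (by linarith)
      · -- discard
        push Not at hlink
        refine ⟨Pj k, A, B, fun p hp => ⟨k, le_rfl, hp⟩, hg, ?_, Or.inr hbig, ?_⟩
        · nlinarith [Nat.zero_le (A * 8 ^ k)]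
        · have hN'0 : (0 : ℝ) < ((∏ p ∈ P', p : ℕ) : ℝ) := by
            have : 0 < ∏ p ∈ P', p := Finset.prod_pos (fun q hq => (hP' q hq).pos)
            exact_mod_cast this
          have h3 := Hr_mul P' hP'
          have hlR : (8 : ℝ) ^ k * ((∏ p ∈ P', (p + 1) : ℕ) : ℝ) <
              ((∏ p ∈ P', p : ℕ) : ℝ) + 8 ^ k * (((∏ p ∈ P', p : ℕ) : ℝ) + 2 * (A' : ℝ)) := by
            exact_mod_cast hlink
          have hAR : (A' : ℝ) * (8 ^ k * 8) ≤ ((∏ p ∈ P', p : ℕ) : ℝ) := by
            rw [pow_succ] at hA'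
            exact_mod_cast hA'
          rw [← h3] at hlR
          set N' := ((∏ p ∈ P', p : ℕ) : ℝ) with hN'
          have h8 : (0 : ℝ) < 8 ^ k := by positivity
          have h5 : (8 : ℝ) ^ k * Hr P' < 8 ^ k + 5 / 4 := by
            have : (8 ^ k * Hr P') * N' < (8 ^ k + 5 / 4) * N' := by nlinarith
            exact lt_of_mul_lt_mul_right this hN'0.le
          have h6 : Hr P' < 1 + (5 / 4) * (1 / 8 ^ k) := by
            have : (8 : ℝ) ^ k * Hr P' < 8 ^ k * (1 + (5 / 4) * (1 / 8 ^ k)) := by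
              have e3 : (8 : ℝ) ^ k * (1 + (5 / 4) * (1 / 8 ^ k)) = 8 ^ k + 5 / 4 := by
                field_simp
              rw [e3]
              exact h5
            exact lt_of_mul_lt_mul_left this h8.le
          set u := (1 : ℝ) / 8 ^ k with hu'
          have h7 : (1 - 1 / 4 * u) * X < 1 + 5 / 4 * u := lt_of_le_of_lt hH' h6
          have h9 : (1 - 2 * u) * X ≤ 1 := by
            have h10 : (1 - 2 * u) * ((1 - 1 / 4 * u) * X) ≤ (1 - 2 * u) * (1 + 5 / 4 * u) :=
              mul_le_mul_of_nonneg_left h7.le (by linarith)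
            have h11 : (1 - 2 * u) * (1 + 5 / 4 * u) ≤ (1 - 1 / 4 * u) * 1 := by nlinarith
            have h12 : (1 - 1 / 4 * u) * ((1 - 2 * u) * X) ≤ (1 - 1 / 4 * u) * 1 := by
              calc (1 - 1 / 4 * u) * ((1 - 2 * u) * X) = (1 - 2 * u) * ((1 - 1 / 4 * u) * X) := by
                    ring
                _ ≤ _ := h10.trans h11
            exact le_of_mul_le_mul_left h12 (by linarith)
          calc (1 - 2 * u) * (Hr (Pj k) * X) = Hr (Pj k) * ((1 - 2 * u) * X) := by ring
            _ ≤ Hr (Pj k) * 1 := mul_le_mul_of_nonneg_left h9 (by linarith)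
            _ = Hr (Pj k) := mul_one _
    · rw [if_neg hn, one_mul]
      refine ⟨P', A', B', ?_, hg', ?_, ?_, ?_⟩
      · intro p hp
        obtain ⟨j, hj1, hj2⟩ := hm' p hp
        exact ⟨j, by omega, hj2⟩
      · rw [pow_succ] at hA'
        nlinarith [Nat.zero_le (A' * 8 ^ k)]
      · rcases hbig' with h | h
        · exact Or.inl h
        · right
          have : (16 : ℕ) ^ (k + 1) ≤ 16 ^ (k + 1 + 1) :=
            Nat.pow_le_pow_right (by norm_num) (by omega)
          omega
      · refine le_trans ?_ hH'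
        apply mul_le_mul_of_nonneg_right _ (by linarith)
        linarith

end Pool.Agent.Helper138.Weird
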