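import Pool.Agent.Helper138.Weird.Pairs

set_option autoImplicit false

namespace Pool.Agent.Helper138.Weird

open Finset

/-- product of a set of naturals -/
def pr (S : Finset ℕ) : ℕ := ∏ p ∈ S, p

theorem pr_le {x : ℕ} {S : Finset ℕ} (h : ∀ p ∈ S, p < 2 * x) : pr S ≤ (2 * x) ^ S.card :=
  Finset.prod_le_pow_card _ _ _ (fun p hp => (h p hp).le)

theorem pr_ge {x : ℕ} {S : Finset ℕ} (h : ∀ p ∈ S, x ≤ p) : x ^ S.card ≤ pr S :=
  Finset.pow_card_le_prod _ _ _ h

theorem swap_lemma (P : Finset ℕ) (x : ℕ) (hx0 : 0 < x) (hx : ∀ p ∈ P, x ≤ p ∧ p < 2 * x)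
    (S : Finset ℕ) (hS : S ⊆ P) (r : ℕ) (hr : r + 1 ≤ S.card) :
    (S.card.choose (r + 1)) * ((P.card - S.card).choose r) * pr S ≤
      2 ^ (r + 1) * x * ∑ S' ∈ P.powersetCard (S.card - 1), pr S' := by
  classical
  let Q : Finset (Finset ℕ × Finset ℕ) :=
    (S.powersetCard (r + 1)) ×ˢ ((P \ S).powersetCard r)
  let Φ : Finset ℕ × Finset ℕ → Finset ℕ := fun q => (S \ q.1) ∪ q.2
  have hQ : ∀ q ∈ Q, q.1 ⊆ S ∧ q.1.card = r + 1 ∧ q.2 ⊆ P \ S ∧ q.2.card = r := by
    intro q hq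
    simp only [Q, mem_product, mem_powersetCard] at hq
    exact ⟨hq.1.1, hq.1.2, hq.2.1, hq.2.2⟩
  have hdis : ∀ q ∈ Q, Disjoint (S \ q.1) q.2 := by
    intro q hq
    obtain ⟨h1, h2, h3, h4⟩ := hQ q hq
    rw [disjoint_left]
    intro y hy hy'
    have := h3 hy'
    rw [mem_sdiff] at this hy
    exact this.2 hy.1
  have hΦ : ∀ q ∈ Q, Φ q ∈ P.powersetCard (S.card - 1) := by
    intro q hq
    obtain ⟨h1, h2, h3, h4⟩ := hQ q hq
    rw [mem_powersetCard]
    refine ⟨union_subset (sdiff_subset.trans hS) (h3.trans sdiff_subset), ?_⟩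
    show ((S \ q.1) ∪ q.2).card = _
    rw [card_union_of_disjoint (hdis q hq), card_sdiff_of_subset h1, h2, h4]
    omega
  have hinj : Set.InjOn Φ (Q : Set (Finset ℕ × Finset ℕ)) := by
    intro q hq q' hq' h
    obtain ⟨h1, h2, h3, h4⟩ := hQ q hq
    obtain ⟨h1', h2', h3', h4'⟩ := hQ q' hq'
    have e1 : ∀ q : Finset ℕ × Finset ℕ, q.1 ⊆ S → q.2 ⊆ P \ S →
        q.1 = S \ Φ q ∧ q.2 = Φ q \ S := by
      intro q h1 h3
      constructor
      · ext y
        simp only [Φ, mem_sdiff, mem_union, not_or]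
        constructor
        · intro hy
          refine ⟨h1 hy, fun hh => hh.2 hy, fun hh => ?_⟩
          have := h3 hh
          rw [mem_sdiff] at this
          exact this.2 (h1 hy)
        · rintro ⟨hy, h5, h6⟩
          by_contra h7
          exact h5 ⟨hy, h7⟩
      · ext y
        simp only [Φ, mem_sdiff, mem_union]
        constructor
        · intro hy
          have := h3 hy
          rw [mem_sdiff] at this
          exact ⟨Or.inr hy, this.2⟩
        · rintro ⟨h5 | h5, h6⟩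
          · exact absurd h5.1 h6
          · exact h5
    obtain ⟨a1, a2⟩ := e1 q h1 h3
    obtain ⟨b1, b2⟩ := e1 q' h1' h3'
    rw [h] at a1 a2
    exact Prod.ext (a1.trans b1.symm) (a2.trans b2.symm)
  have hval : ∀ q ∈ Q, pr S ≤ 2 ^ (r + 1) * x * pr (Φ q) := by
    intro q hq
    obtain ⟨h1, h2, h3, h4⟩ := hQ q hq
    have e1 : pr (Φ q) * pr q.1 = pr S * pr q.2 := by
      show (∏ p ∈ (S \ q.1) ∪ q.2, p) * (∏ p ∈ q.1, p) = (∏ p ∈ S, p) * ∏ p ∈ q.2, p
      rw [prod_union (hdis q hq), ← prod_sdiff h1]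
      ring
    have e2 : pr q.1 ≤ (2 * x) ^ (r + 1) := by
      rw [← h2]
      exact pr_le (fun p hp => (hx p (hS (h1 hp))).2)
    have e3 : x ^ r ≤ pr q.2 := by
      rw [← h4]
      refine pr_ge (fun p hp => (hx p ?_).1)
      exact sdiff_subset (h3 hp)
    have hxr : 0 < x ^ r := Nat.pow_pos hx0
    have e4 : pr S * x ^ r ≤ (2 ^ (r + 1) * x * pr (Φ q)) * x ^ r := by
      calc pr S * x ^ r ≤ pr S * pr q.2 := Nat.mul_le_mul_left _ e3
        _ = pr (Φ q) * pr q.1 := e1.symm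
        _ ≤ pr (Φ q) * (2 * x) ^ (r + 1) := Nat.mul_le_mul_left _ e2
        _ = (2 ^ (r + 1) * x * pr (Φ q)) * x ^ r := by ring
    exact Nat.le_of_mul_le_mul_right e4 hxr
  have hcardQ : Q.card = (S.card.choose (r + 1)) * ((P.card - S.card).choose r) := by
    simp only [Q, card_product, card_powersetCard]
    rw [card_sdiff_of_subset hS]
  rw [← hcardQ]
  calc Q.card * pr S = ∑ q ∈ Q, pr S := by rw [sum_const, smul_eq_mul]
    _ ≤ ∑ q ∈ Q, 2 ^ (r + 1) * x * pr (Φ q) := sum_le_sum hval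
    _ = 2 ^ (r + 1) * x * ∑ q ∈ Q, pr (Φ q) := by rw [mul_sum]
    _ = 2 ^ (r + 1) * x * ∑ S' ∈ Q.image Φ, pr S' := by rw [sum_image hinj]
    _ ≤ 2 ^ (r + 1) * x * ∑ S' ∈ P.powersetCard (S.card - 1), pr S' := by
        apply Nat.mul_le_mul_left
        apply sum_le_sum_of_subset
        intro y hy
        rw [mem_image] at hy
        obtain ⟨q, hq, rfl⟩ := hy
        exact hΦ q hq

/-- a level-`(k+1)` product is at most the sum of all level-`k` products -/
theorem level_le (P : Finset ℕ) (x : ℕ) (hx0 : 0 < x) (hx : ∀ p ∈ P, x ≤ p ∧ p < 2 * x)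
    (hch : ∀ n, P.card ≤ 2 * n → 8 * x ≤ n.choose 2)
    (S : Finset ℕ) (hS : S ⊆ P) (h3 : 3 ≤ S.card) (hlt : S.card < P.card) :
    pr S ≤ ∑ S' ∈ P.powersetCard (S.card - 1), pr S' := by
  set tot := ∑ S' ∈ P.powersetCard (S.card - 1), pr S' with htot
  by_cases hk : P.card ≤ 2 * S.card
  · have h1 := swap_lemma P x hx0 hx S hS 1 (by omega)
    have h2 := hch _ hk
    have h4 : (P.card - S.card).choose 1 = P.card - S.card := Nat.choose_one_right _
    rw [h4, ← htot] at h1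
    have h5 : 1 ≤ P.card - S.card := by omega
    have h6 : 8 * x * 1 ≤ (S.card.choose (1 + 1)) * (P.card - S.card) := Nat.mul_le_mul h2 h5
    have h7 : 8 * x * 1 * pr S ≤ 2 ^ (1 + 1) * x * tot := (Nat.mul_le_mul_right _ h6).trans h1
    have h8 : (8 * x) * pr S ≤ (8 * x) * tot := by
      have : 2 ^ (1 + 1) * x * tot ≤ (8 * x) * tot := Nat.mul_le_mul_right _ (by omega)
      calc (8 * x) * pr S = 8 * x * 1 * pr S := by ring
        _ ≤ _ := h7.trans this
    exact Nat.le_of_mul_le_mul_left h8 (by omega)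
  · have h1 := swap_lemma P x hx0 hx S hS 2 (by omega)
    have h2 := hch (P.card - S.card) (by omega)
    rw [← htot] at h1
    have h5 : 1 ≤ S.card.choose (2 + 1) := Nat.choose_pos (by omega)
    have h6 : 1 * (8 * x) ≤ (S.card.choose (2 + 1)) * ((P.card - S.card).choose 2) :=
      Nat.mul_le_mul h5 h2
    have h7 : 1 * (8 * x) * pr S ≤ 2 ^ (2 + 1) * x * tot := (Nat.mul_le_mul_right _ h6).trans h1
    have h8 : (8 * x) * pr S ≤ (8 * x) * tot := by
      calc (8 * x) * pr S = 1 * (8 * x) * pr S := by ring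
        _ ≤ _ := h7
        _ = (8 * x) * tot := by ring
    exact Nat.le_of_mul_le_mul_left h8 (by omega)

theorem pr_injOn (P : Finset ℕ) (hP : ∀ p ∈ P, p.Prime) :
    Set.InjOn pr (P.powerset : Set (Finset ℕ)) := by
  intro S hS S' hS' h
  rw [mem_coe, mem_powerset] at hS hS'
  have h1 : (pr S).primeFactors = S := Nat.primeFactors_prod (fun p hp => hP p (hS hp))
  have h2 : (pr S').primeFactors = S' := Nat.primeFactors_prod (fun p hp => hP p (hS' hp))
  rw [← h1, ← h2, h]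

end Pool.Agent.Helper138.Weird
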